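import Pool.Agent.Helper52.GPM.S

namespace Pool.Agent.Helper89.GPM

open Relation Classical Pool.Agent.Helper18.GP Pool.Agent.Helper52.GPM

theorem eqvGen_bind {α : Type*} {r s : α → α → Prop} (h : ∀ x y, r x y → EqvGen s x y)
    {a b : α} (hab : EqvGen r a b) : EqvGen s a b := by
  induction hab with
  | rel x y hxy => exact h x y hxy
  | refl x => exact EqvGen.refl x
  | symm x y _ ih => exact ih.symm
  | trans x y z _ _ ih1 ih2 => exact ih1.trans _ _ _ ih2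

theorem mod_mUnion (h : stMAtt) : mUnion := by
  intro N V S₁ S₂ F F₁ F₂ d hd h1 h2 hcov hcom hF1 hF2
  obtain ⟨m₁, hm₁, e₁⟩ := h N S₁ d F₁
  obtain ⟨m₂, hm₂, e₂⟩ := h N S₂ d F₂
  have hA : ∀ a ∈ S₁, ∀ b ∈ S₁, EqvGen (fun x y => (x, y) ∈ m₁ ∪ m₂ ∨ F x y) a b := by
    intro a ha b hb
    refine eqvGen_bind ?_ (hm₁.2 a ha b hb)
    rintro x y (hxy | hxy)
    · exact EqvGen.rel _ _ (Or.inl (Finset.mem_union_left _ hxy))
    · exact EqvGen.rel _ _ (Or.inr (hF1 x y hxy))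
  have hB : ∀ a ∈ S₂, ∀ b ∈ S₂, EqvGen (fun x y => (x, y) ∈ m₁ ∪ m₂ ∨ F x y) a b := by
    intro a ha b hb
    refine eqvGen_bind ?_ (hm₂.2 a ha b hb)
    rintro x y (hxy | hxy)
    · exact EqvGen.rel _ _ (Or.inl (Finset.mem_union_right _ hxy))
    · refine eqvGen_bind ?_ (hF2 m₁ hm₁ x y hxy)
      rintro x' y' (hxy' | hxy')
      · exact EqvGen.rel _ _ (Or.inl (Finset.mem_union_left _ hxy'))
      · exact EqvGen.rel _ _ (Or.inr hxy')
  have hM : MConn V F (m₁ ∪ m₂) := by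
    refine ⟨?_, ?_⟩
    · intro e he
      rcases Finset.mem_union.1 he with he | he
      · exact ⟨h1 (hm₁.1 e he).1, h1 (hm₁.1 e he).2⟩
      · exact ⟨h2 (hm₂.1 e he).1, h2 (hm₂.1 e he).2⟩
    · obtain ⟨v, hv1, hv2⟩ := hcom
      have key : ∀ a ∈ V, EqvGen (fun x y => (x, y) ∈ m₁ ∪ m₂ ∨ F x y) a v := by
        intro a ha
        rcases hcov a ha with ha' | ha'
        · exact hA a ha' v hv1
        · exact hB a ha' v hv2
      intro a ha b hb
      exact (key a ha).trans _ _ _ (key b hb).symm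
  have hnn : ∀ e ∈ m₁ ∩ m₂, 0 ≤ d e.1 e.2 := by
    intro e he
    have := (hm₁.1 e (Finset.mem_inter.1 he).1)
    exact hd _ (h1 this.1) _ (h1 this.2)
  calc Mst V d F ≤ mw d (m₁ ∪ m₂) := Mst_le hd hM
    _ ≤ mw d m₁ + mw d m₂ := by
        unfold mw
        rw [← Finset.sum_union_inter (s₁ := m₁) (s₂ := m₂)]
        have := Finset.sum_nonneg hnn
        linarith
    _ = Mst S₁ d F₁ + Mst S₂ d F₂ := by rw [e₁, e₂]

end Pool.Agent.Helper89.GPM
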