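import Pool.Agent.Helper52.GPM.S

namespace Pool.Agent.Helper89.GPM

open Relation Classical Pool.Agent.Helper18.GP Pool.Agent.Helper52.GPM

theorem mod_stMAtt : stMAtt := by
  intro N V w F
  have hset : {c | ∃ m, MConn V F m ∧ c = mw w m} = (fun m => mw w m) '' {m | MConn V F m} := by
    ext c
    constructor
    · rintro ⟨m, hm, rfl⟩
      exact ⟨m, hm, rfl⟩
    · rintro ⟨m, hm, rfl⟩
      exact ⟨m, hm, rfl⟩
  have hfin : Set.Finite {m | MConn V F m} := Set.toFinite _
  have hne : ({m | MConn V F m} : Set (Finset (Fin N × Fin N))).Nonempty := by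
    refine ⟨V ×ˢ V, ?_, ?_⟩
    · intro e he
      exact Finset.mem_product.1 he
    · intro a ha b hb
      exact EqvGen.rel _ _ (Or.inl (Finset.mem_product.2 ⟨ha, hb⟩))
  have hmem : sInf ((fun m => mw w m) '' {m | MConn V F m}) ∈
      (fun m => mw w m) '' {m | MConn V F m} :=
    (hne.image _).csInf_mem (hfin.image _)
  obtain ⟨m, hm, he⟩ := hmem
  refine ⟨m, hm, ?_⟩
  unfold Mst
  rw [hset]
  exact he

end Pool.Agent.Helper89.GPM
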